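import Mathlib

set_option autoImplicit false

/-!
# A coordinatewise rank function

For a countable initial part `I` of a linear order `J` and a function `κ`, there is a function
`G j n` above a given one, with `G j (max n' (κ i n j)) ≤ max (G i n) (G j n')` for `i < j` in `I`.
-/

open Set

namespace Pool.Agent.Helper21.NCH

variable {J : Type*} [LinearOrder J]

/-- Finite version: a function `ν ≥ b` such that `κ i n j ≤ ν j` whenever `i < j` in `Z` and
`n ≤ ν i`. -/
theorem exists_nu (κ : J → ℕ → J → ℕ) (Z : Finset J) (b : J → ℕ) :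
    ∃ ν : J → ℕ, (∀ j, b j ≤ ν j) ∧
      ∀ i ∈ Z, ∀ j ∈ Z, i < j → ∀ n ≤ ν i, κ i n j ≤ ν j := by
  classical
  induction Z using Finset.induction_on_max with
  | empty => exact ⟨b, fun j => le_rfl, by simp⟩
  | insert a s ha ih =>
    obtain ⟨ν, h1, h2⟩ := ih
    refine ⟨Function.update ν a (max (ν a) (s.sup fun i => (Finset.range (ν i + 1)).sup
      fun n => κ i n a)), ?_, ?_⟩
    · intro j
      by_cases hj : j = a
      · subst hj
        simp only [Function.update_self]
        exact le_max_of_le_left (h1 j)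
      · simp only [Function.update_of_ne hj]
        exact h1 j
    · intro i hi j hj hij n hn
      rw [Finset.mem_insert] at hi hj
      rcases hj with rfl | hj
      · rcases hi with rfl | hi
        · exact absurd hij (lt_irrefl _)
        · have hne : i ≠ j := ne_of_lt hij
          simp only [Function.update_of_ne hne] at hn
          simp only [Function.update_self]
          refine le_max_of_le_right ?_
          refine le_trans ?_ (Finset.le_sup (f := fun i => (Finset.range (ν i + 1)).sup
            fun n => κ i n j) hi)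
          exact Finset.le_sup (f := fun n => κ i n j) (Finset.mem_range.2 (by omega))
      · have hja : j ≠ a := ne_of_lt (ha j hj)
        rcases hi with rfl | hi
        · exact absurd hij (not_lt.2 (ha j hj).le)
        · have hia : i ≠ a := ne_of_lt (ha i hi)
          simp only [Function.update_of_ne hia] at hn
          simp only [Function.update_of_ne hja]
          exact h2 i hi j hj hij n hn

/-- The rank function: `G ≥ c` on `I` and
`G j (max n' (κ i n j)) ≤ max (G i n) (G j n')` for `i < j` in the countable set `I`. -/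
theorem exists_rank (κ : J → ℕ → J → ℕ) (c : J → ℕ → ℕ) (I : Set J) (hI : I.Countable) :
    ∃ G : J → ℕ → ℕ, (∀ j ∈ I, ∀ n, c j n ≤ G j n) ∧
      ∀ i ∈ I, ∀ j ∈ I, i < j → ∀ n n', G j (max n' (κ i n j)) ≤ max (G i n) (G j n') := by
  classical
  obtain ⟨π, hπ⟩ := (Set.countable_iff_exists_injOn).1 hI
  have hfin : ∀ m : ℕ, {i | i ∈ I ∧ π i ≤ m}.Finite := by
    intro m
    refine Set.Finite.of_finite_image (f := π) ?_ ?_
    · exact (Set.finite_Iic m).subset (by rintro _ ⟨i, hi, rfl⟩; exact hi.2)
    · exact hπ.mono (fun i hi => hi.1)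
  set Z : ℕ → Finset J := fun m => (hfin m).toFinset with hZ
  have memZ : ∀ m i, i ∈ Z m ↔ i ∈ I ∧ π i ≤ m := by
    intro m i; simp [hZ]
  choose Φ hΦ1 hΦ2 using exists_nu κ
  let ν : ℕ → J → ℕ := fun m => Nat.rec (Φ (Z 0) 0)
    (fun m v => Φ (Z (m + 1)) (fun i => max (v i) (m + 1))) m
  have hν0 : ν 0 = Φ (Z 0) 0 := rfl
  have hνs : ∀ m, ν (m + 1) = Φ (Z (m + 1)) (fun i => max (ν m i) (m + 1)) := fun m => rfl
  have hν_mono : ∀ i, Monotone (fun m => ν m i) := by
    intro i
    refine monotone_nat_of_le_succ fun m => ?_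
    simp only [hνs]
    exact le_trans (le_max_left _ _) (hΦ1 (Z (m + 1)) (fun i => max (ν m i) (m + 1)) i)
  have hν_ge : ∀ m i, m ≤ ν m i := by
    intro m i
    cases m with
    | zero => exact Nat.zero_le _
    | succ m =>
      rw [hνs]
      exact le_trans (le_max_right _ _) (hΦ1 (Z (m + 1)) (fun i => max (ν m i) (m + 1)) i)
  have hν_cl : ∀ m, ∀ i ∈ Z m, ∀ j ∈ Z m, i < j → ∀ n ≤ ν m i, κ i n j ≤ ν m j := by
    intro m
    cases m with
    | zero => rw [hν0]; exact hΦ2 _ _
    | succ m => rw [hνs]; exact hΦ2 _ _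
  -- membership in the sets B m
  let B : ℕ → J → ℕ → Prop := fun m i n => i ∈ Z m ∧ n ≤ ν m i
  have hB_mono : ∀ m m' i n, m ≤ m' → B m i n → B m' i n := by
    intro m m' i n hm h
    refine ⟨?_, h.2.trans (hν_mono i hm)⟩
    rw [memZ] at *
    have := (memZ m i).1 h.1
    exact ⟨this.1, this.2.trans hm⟩
  have hB_ex : ∀ i ∈ I, ∀ n, ∃ m, B m i n := by
    intro i hi n
    refine ⟨max (π i) n, ?_, ?_⟩
    · rw [memZ]; exact ⟨hi, le_max_left _ _⟩
    · exact (le_max_right _ _).trans (hν_ge _ _)
  let ρ : J → ℕ → ℕ := fun i n => sInf {m | B m i n}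
  have hρ : ∀ i ∈ I, ∀ n, B (ρ i n) i n := by
    intro i hi n
    exact Nat.sInf_mem (s := {m | B m i n}) (hB_ex i hi n)
  have hρ_min : ∀ i n m, B m i n → ρ i n ≤ m := by
    intro i n m hm
    exact Nat.sInf_le (s := {m | B m i n}) hm
  let C : ℕ → ℕ := fun m => (Z m).sup fun j => (Finset.range (ν m j + 1)).sup fun n => c j n
  have hC_ge : ∀ m j n, B m j n → c j n ≤ C m := by
    intro m j n h
    refine le_trans ?_ (Finset.le_sup (f := fun j => (Finset.range (ν m j + 1)).sup
      fun n => c j n) h.1)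
    exact Finset.le_sup (f := fun n => c j n) (Finset.mem_range.2 (by have := h.2; omega))
  have hC_mono : Monotone C := by
    intro m m' hm
    refine Finset.sup_le fun j hj => Finset.sup_le fun n hn => ?_
    refine hC_ge m' j n (hB_mono m m' j n hm ⟨hj, ?_⟩)
    have := Finset.mem_range.1 hn
    omega
  refine ⟨fun j n => C (ρ j n), fun j hj n => hC_ge _ _ _ (hρ j hj n), ?_⟩
  intro i hi j hj hij n n'
  have key : ρ j (max n' (κ i n j)) ≤ max (ρ i n) (ρ j n') := by
    refine hρ_min _ _ _ ?_
    have h1 := hB_mono _ _ _ _ (le_max_left (ρ i n) (ρ j n')) (hρ i hi n)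
    have h2 := hB_mono _ _ _ _ (le_max_right (ρ i n) (ρ j n')) (hρ j hj n')
    refine ⟨h2.1, max_le h2.2 ?_⟩
    exact hν_cl _ i h1.1 j h2.1 hij n h1.2
  calc C (ρ j (max n' (κ i n j))) ≤ C (max (ρ i n) (ρ j n')) := hC_mono key
    _ = max (C (ρ i n)) (C (ρ j n')) := hC_mono.map_max

end Pool.Agent.Helper21.NCH
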