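import Mathlib
import Pool.Agent.Helper21.NCH.Rank

set_option autoImplicit false

/-!
# The combinatorial core: tubes, centres, and closedness of countable unions
-/

open Set Filter Topology

namespace Pool.Agent.Helper21.NCH

variable {Λ : Type*}

/-- Basic clopen sets of `ℕ∞`. -/
def Vn (v : ℕ∞) (k : ℕ) : Set ℕ∞ := {u | (v ≠ ⊤ → u = v) ∧ (v = ⊤ → (k : ℕ∞) ≤ u)}

/-- Basic clopen boxes. -/
def Nb (x : Λ → ℕ∞) (g : Λ → ℕ) : Set (Λ → ℕ∞) :=
  {h | ∀ a, (x a ≠ ⊤ → h a = x a) ∧ (x a = ⊤ → (g a : ℕ∞) ≤ h a)}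

theorem mem_Vn (v u : ℕ∞) (k : ℕ) :
    u ∈ Vn v k ↔ (v ≠ ⊤ → u = v) ∧ (v = ⊤ → (k : ℕ∞) ≤ u) := Iff.rfl

theorem mem_Nb (x h : Λ → ℕ∞) (g : Λ → ℕ) :
    h ∈ Nb x g ↔ ∀ a, (x a ≠ ⊤ → h a = x a) ∧ (x a = ⊤ → (g a : ℕ∞) ≤ h a) := Iff.rfl

theorem Vn_mem_nhds (v : ℕ∞) (k : ℕ) : Vn v k ∈ 𝓝 v := by
  by_cases hv : v = ⊤
  · subst hv
    refine Filter.mem_of_superset (Ici_mem_nhds (ENat.natCast_lt_top k)) ?_
    intro u hu
    exact ⟨fun h => absurd rfl h, fun _ => hu⟩
  · rw [ENat.mem_nhds_iff hv]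
    exact ⟨fun _ => rfl, fun h => absurd h hv⟩

/-- In the product topology the points that agree with `x` off a finite set form a compact
set. -/
theorem isCompact_tube (x : Λ → ℕ∞) (A : Finset Λ) :
    IsCompact {v : Λ → ℕ∞ | ∀ a, a ∉ A → v a = x a} := by
  classical
  have h : IsCompact (Set.pi univ fun a : Λ => if a ∈ A then (univ : Set ℕ∞) else {x a}) := by
    refine isCompact_univ_pi fun a => ?_
    by_cases ha : a ∈ A
    · rw [if_pos ha]; exact isCompact_univ
    · rw [if_neg ha]; exact isCompact_singleton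
  convert h using 1
  ext v
  constructor
  · intro hv a _
    by_cases ha : a ∈ A
    · simp [if_pos ha]
    · simp only [if_neg ha]
      exact hv a ha
  · intro hv a ha
    have := hv a (mem_univ a)
    simp only [if_neg ha] at this
    exact this

theorem tube_nhds (w : Λ → ℕ∞) (A : Finset Λ) (g : Λ → ℕ) :
    {v : Λ → ℕ∞ | ∀ a ∈ A, v a ∈ Vn (w a) (g a)} ∈ 𝓝 w := by
  have : {v : Λ → ℕ∞ | ∀ a ∈ A, v a ∈ Vn (w a) (g a)} =
      ⋂ a ∈ A, (fun v : Λ → ℕ∞ => v a) ⁻¹' Vn (w a) (g a) := by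
    ext v
    simp
  rw [this, Filter.biInter_finset_mem]
  intro a _
  exact (continuous_apply a).continuousAt.preimage_mem_nhds (Vn_mem_nhds _ _)

/-- Tube lemma. -/
theorem exists_tube (gc : (Λ → ℕ∞) → Λ → ℕ) (x : Λ → ℕ∞) (A : Finset Λ) :
    ∃ U : Finset (Λ → ℕ∞), (∀ w ∈ U, ∀ a, a ∉ A → w a = x a) ∧
      ∀ v : Λ → ℕ∞, (∀ a, a ∉ A → v a = x a) → ∃ w ∈ U, ∀ a ∈ A, v a ∈ Vn (w a) (gc w a) := by
  obtain ⟨U, hU1, hU2⟩ := (isCompact_tube x A).elim_nhds_subcover
    (fun w => {v : Λ → ℕ∞ | ∀ a ∈ A, v a ∈ Vn (w a) (gc w a)})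
    (fun w _ => tube_nhds w A (gc w))
  refine ⟨U, hU1, fun v hv => ?_⟩
  have := hU2 hv
  simp only [mem_iUnion] at this
  obtain ⟨w, hw, h⟩ := this
  exact ⟨w, hw, h⟩

/-- The set where `x` and `y` are both different from the limit point, and differ. -/
def Dis (x y : Λ → ℕ∞) : Set Λ := {a | x a ≠ ⊤ ∧ y a ≠ ⊤ ∧ x a ≠ y a}

variable {J : Type*} [LinearOrder J]

/-- All data of the construction. -/
structure Data (Λ : Type*) (J : Type*) [LinearOrder J] where
  /-- canonical neighbourhoods -/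
  gc : (Λ → ℕ∞) → Λ → ℕ
  /-- enumeration of the points -/
  x : J → Λ → ℕ∞
  /-- the finite sets -/
  A : J → ℕ → Finset Λ
  /-- the countable sets -/
  δ : J → Set Λ
  /-- the levels -/
  κ : J → ℕ → J → ℕ
  /-- the finite covers of the tubes -/
  U : J → ℕ → Finset (Λ → ℕ∞)
  /-- the bounds -/
  G : J → ℕ → Λ → ℕ
  A_zero : ∀ j, A j 0 = ∅
  A_mono : ∀ j n m, n ≤ m → A j n ⊆ A j m
  A_sub : ∀ j n a, a ∈ A j n → a ∈ δ j
  δ_mono : ∀ i j, i ≤ j → δ i ⊆ δ j
  x_dom : ∀ j a, x j a ≠ ⊤ → a ∈ δ j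
  δ_count : ∀ j, (δ j).Countable
  κ_A : ∀ i n j, i ≤ j → A i n ⊆ A j (κ i n j)
  κ_Dis : ∀ i n j, i ≤ j → (Dis (x i) (x j)).Finite → ∀ a ∈ Dis (x i) (x j), a ∈ A j (κ i n j)
  U_eq : ∀ j n, ∀ w ∈ U j n, ∀ a, a ∉ A j n → w a = x j a
  U_cover : ∀ j n, ∀ v : Λ → ℕ∞, (∀ a, a ∉ A j n → v a = x j a) →
    ∃ w ∈ U j n, ∀ a ∈ A j n, v a ∈ Vn (w a) (gc w a)
  G_ge : ∀ j n a, a ∉ A j n → ∀ w ∈ U j n, gc w a ≤ G j n a
  G_const : ∀ j n m a, a ∈ δ j → G j n a = G j m a
  G_rank : ∀ i n j m a, i ≤ j → a ∉ δ j → G j (max m (κ i n j)) a ≤ max (G i n a) (G j m a)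

namespace Data

open Classical in
/-- The box attached to a centre. -/
noncomputable def g (D : Data Λ J) (j : J) (n : ℕ) (w : Λ → ℕ∞) (a : Λ) : ℕ :=
  if a ∈ D.A j n then D.gc w a else D.G j n a

/-- The union of the boxes at the centres with `j ∈ I`. -/
def W (D : Data Λ J) (I : Set J) : Set (Λ → ℕ∞) :=
  {h | ∃ j ∈ I, ∃ n, ∃ w ∈ D.U j n, h ∈ Nb w (D.g j n w)}

variable (D : Data Λ J)

theorem gc_le_g (j : J) (n : ℕ) (w : Λ → ℕ∞) (hw : w ∈ D.U j n) (a : Λ) :
    D.gc w a ≤ D.g j n w a := by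
  unfold g
  split_ifs with h
  · exact le_rfl
  · exact D.G_ge j n a h w hw

/-- The pair argument. -/
theorem pair (I : Set J) (h h1 h2 : Λ → ℕ∞) (i j : J) (hij : i ≤ j) (hj : j ∈ I)
    (n m : ℕ) (z z' : Λ → ℕ∞) (hz : z ∈ D.U i n) (hz' : z' ∈ D.U j m)
    (hh1 : h1 ∈ Nb z (D.g i n z)) (hh2 : h2 ∈ Nb z' (D.g j m z'))
    (d : Set Λ) (hd1 : ∀ a, a ∈ d ↔ z a ≠ ⊤ ∧ h a = ⊤) (hd2 : ∀ a, a ∈ d ↔ z' a ≠ ⊤ ∧ h a = ⊤)
    (hdf : d.Finite) (hdne : ∀ a ∈ d, z a ≠ z' a)
    (e1 : ∀ a, h a ≠ ⊤ → h1 a = h a) (e2 : ∀ a, h a ≠ ⊤ → h2 a = h a) :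
    h ∈ D.W I := by
  classical
  -- the set of disagreement is finite
  have hDis : ∀ a, z a ≠ ⊤ → z' a ≠ ⊤ → z a ≠ z' a → a ∈ d := by
    intro a ha ha' hne
    by_contra had
    have hha : h a ≠ ⊤ := fun hh => had ((hd1 a).2 ⟨ha, hh⟩)
    apply hne
    rw [← (hh1 a).1 ha, ← (hh2 a).1 ha', e1 a hha, e2 a hha]
  have hDisx : ∀ a ∈ Dis (D.x i) (D.x j), a ∉ D.A i n → a ∉ D.A j m → a ∈ d := by
    intro a ha hA hA'
    have e := D.U_eq i n z hz a hA
    have e' := D.U_eq j m z' hz' a hA'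
    obtain ⟨p1, p2, p3⟩ := ha
    rw [← e] at p1 p3
    rw [← e'] at p2 p3
    exact hDis a p1 p2 p3
  have hfin : (Dis (D.x i) (D.x j)).Finite := by
    refine ((hdf.union (D.A i n).finite_toSet).union (D.A j m).finite_toSet).subset ?_
    intro a ha
    by_cases hA : a ∈ D.A i n
    · exact Or.inl (Or.inr hA)
    · by_cases hA' : a ∈ D.A j m
      · exact Or.inr hA'
      · exact Or.inl (Or.inl (hDisx a ha hA hA'))
  set M := max m (D.κ i n j) with hM
  have hκM : D.A j (D.κ i n j) ⊆ D.A j M := D.A_mono j _ _ (le_max_right _ _)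
  have hmM : D.A j m ⊆ D.A j M := D.A_mono j _ _ (le_max_left _ _)
  have hdM : ∀ a ∈ d, a ∈ D.A j M := by
    intro a ha
    by_cases hA : a ∈ D.A i n
    · exact hκM (D.κ_A i n j hij hA)
    · by_cases hA' : a ∈ D.A j m
      · exact hmM hA'
      · refine hκM (D.κ_Dis i n j hij hfin a ?_)
        refine ⟨?_, ?_, ?_⟩
        · rw [← D.U_eq i n z hz a hA]; exact ((hd1 a).1 ha).1
        · rw [← D.U_eq j m z' hz' a hA']; exact ((hd2 a).1 ha).1
        · rw [← D.U_eq i n z hz a hA, ← D.U_eq j m z' hz' a hA']; exact hdne a ha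
  obtain ⟨w, hwU, hw⟩ := D.U_cover j M (fun a => if a ∈ D.A j M then h a else D.x j a)
    (by intro a ha; simp only [if_neg ha])
  refine ⟨j, hj, M, w, hwU, fun a => ?_⟩
  by_cases hA : a ∈ D.A j M
  · have := hw a hA
    simp only [if_pos hA] at this
    simp only [g, if_pos hA]
    exact this
  · have hwa := D.U_eq j M w hwU a hA
    have had : a ∉ d := fun h' => hA (hdM a h')
    have hAm : a ∉ D.A j m := fun h' => hA (hmM h')
    have hz'a := D.U_eq j m z' hz' a hAm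
    simp only [g, if_neg hA]
    by_cases hδ : a ∈ D.δ j
    · refine ⟨fun hne => ?_, fun htop => ?_⟩
      · rw [hwa] at hne
        have hne' : z' a ≠ ⊤ := by rw [hz'a]; exact hne
        have hha : h a ≠ ⊤ := fun hh => had ((hd2 a).2 ⟨hne', hh⟩)
        rw [hwa, ← hz'a, ← (hh2 a).1 hne', e2 a hha]
      · rw [hwa] at htop
        by_cases hha : h a = ⊤
        · rw [hha]; exact le_top
        · have hz't : z' a = ⊤ := by rw [hz'a]; exact htop
          have := (hh2 a).2 hz't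
          simp only [g, if_neg hAm] at this
          rw [e2 a hha, D.G_const j m M a hδ] at this
          exact this
    · have hxj : D.x j a = ⊤ := by
        by_contra hne
        exact hδ (D.x_dom j a hne)
      refine ⟨fun hne => absurd (hwa.trans hxj) hne, fun _ => ?_⟩
      by_cases hha : h a = ⊤
      · rw [hha]; exact le_top
      · have hδi : a ∉ D.δ i := fun h' => hδ (D.δ_mono i j hij h')
        have hxi : D.x i a = ⊤ := by
          by_contra hne
          exact hδi (D.x_dom i a hne)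
        have hAi : a ∉ D.A i n := fun h' => hδi (D.A_sub i n a h')
        have hza : z a = ⊤ := by rw [D.U_eq i n z hz a hAi]; exact hxi
        have hz't : z' a = ⊤ := by rw [hz'a]; exact hxj
        have t1 := (hh1 a).2 hza
        have t2 := (hh2 a).2 hz't
        simp only [g, if_neg hAi] at t1
        simp only [g, if_neg hAm] at t2
        rw [e1 a hha] at t1
        rw [e2 a hha] at t2
        have t3 := D.G_rank i n j m a hij hδ
        rcases le_max_iff.1 t3 with t | t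
        · exact (Nat.cast_le.2 t).trans t1
        · exact (Nat.cast_le.2 t).trans t2

/-- Property (*): the union is closed in every finite-dimensional slice. -/
theorem star (I : Set J) (h : Λ → ℕ∞) (hh : h ∉ D.W I) (F : Finset Λ) :
    ∃ k : ℕ, ∀ h' : Λ → ℕ∞, (∀ a, a ∉ F → h' a = h a) → h' ∈ Nb h (fun _ => k) →
      h' ∉ D.W I := by
  classical
  by_contra hcon
  push Not at hcon
  choose f h1 h2 h3 using hcon
  choose j hjI n w hwU hN using h3
  let d : ℕ → Finset Λ := fun k => F.filter fun a => w k a ≠ ⊤ ∧ h a = ⊤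
  have hd : ∀ k a, a ∈ d k ↔ w k a ≠ ⊤ ∧ h a = ⊤ := by
    intro k a
    simp only [d, Finset.mem_filter]
    refine ⟨fun t => t.2, fun t => ⟨?_, t⟩⟩
    by_contra haF
    have e := h1 k a haF
    rw [t.2] at e
    have := (hN k a).1 t.1
    exact t.1 (this.symm.trans e)
  obtain ⟨E, hE⟩ : ∃ E : F.powerset, (((fun k => ⟨d k, by simp [d]⟩ : ℕ → F.powerset)) ⁻¹'
      {E}).Infinite := by
    obtain ⟨y, hy⟩ := Finite.exists_infinite_fiber (fun k => ⟨d k, by simp [d]⟩ : ℕ → F.powerset)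
    exact ⟨y, Set.infinite_coe_iff.1 hy⟩
  obtain ⟨k, hk⟩ := hE.nonempty
  obtain ⟨k', hk', hlt⟩ := hE.exists_gt (E.1.sup fun a => (w k a).toNat)
  have hkE : d k = E.1 := by
    have := hk
    simp only [mem_preimage, mem_singleton_iff] at this
    rw [← this]
  have hkE' : d k' = E.1 := by
    have := hk'
    simp only [mem_preimage, mem_singleton_iff] at this
    rw [← this]
  have hne : ∀ a ∈ E.1, w k a ≠ w k' a := by
    intro a ha heq
    have hka := (hd k a).1 (hkE ▸ ha)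
    have hka' := (hd k' a).1 (hkE' ▸ ha)
    have q1 := (hN k' a).1 hka'.1
    have q2 := (h2 k' a).2 hka'.2
    rw [q1, ← heq] at q2
    have q3 : (w k a).toNat ≤ E.1.sup fun a => (w k a).toNat :=
      Finset.le_sup (f := fun a => (w k a).toNat) ha
    have q4 : ((w k a).toNat : ℕ∞) = w k a := ENat.natCast_toNat hka.1
    rw [← q4] at q2
    have q5 : k' ≤ (w k a).toNat := Nat.cast_le.1 q2
    omega
  have e : ∀ k a, h a ≠ ⊤ → f k a = h a := fun k a ha => (h2 k a).1 ha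
  apply hh
  rcases le_total (j k) (j k') with hle | hle
  · exact D.pair I h (f k) (f k') (j k) (j k') hle (hjI k') (n k) (n k') (w k) (w k')
      (hwU k) (hwU k') (hN k) (hN k') E.1 (fun a => by rw [← hkE]; exact hd k a)
      (fun a => by rw [← hkE']; exact hd k' a) (Finset.finite_toSet _) hne (e k) (e k')
  · exact D.pair I h (f k') (f k) (j k') (j k) hle (hjI k) (n k') (n k) (w k') (w k)
      (hwU k') (hwU k) (hN k') (hN k) E.1 (fun a => by rw [← hkE']; exact hd k' a)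
      (fun a => by rw [← hkE]; exact hd k a) (Finset.finite_toSet _)
      (fun a ha => (hne a ha).symm) (e k') (e k)

/-- `Q F g`: no member of `W I` in the slice over `F` inside the box given by `g`. -/
def Q (I : Set J) (h : Λ → ℕ∞) (F : Finset Λ) (g : Λ → ℕ) : Prop :=
  ∀ h' : Λ → ℕ∞, (∀ a, a ∉ F → h' a = h a) → h' ∈ Nb h g → h' ∉ D.W I

open Classical in
theorem step (I : Set J) (h : Λ → ℕ∞) (F F' : Finset Λ) (hFF' : F ⊆ F') (g : Λ → ℕ)
    (hQ : D.Q I h F g) : ∃ k : ℕ, D.Q I h F' (fun a => if a ∈ F then g a else k) := by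
  by_contra hcon
  simp only [Q] at hcon
  push Not at hcon
  choose f h1 h2 h3 using hcon
  -- the limit
  obtain ⟨h', hh'T, hlim⟩ := (isCompact_tube h F').ultrafilter_le_nhds
    ((hyperfilter ℕ).map f) (by
      rw [le_principal_iff]
      change f ⁻¹' _ ∈ (hyperfilter ℕ : Filter ℕ)
      exact Filter.univ_mem' (fun k => h1 k))
  have hlim' : Tendsto f (hyperfilter ℕ : Filter ℕ) (𝓝 h') := hlim
  have hcoord : ∀ a, Tendsto (fun k => f k a) (hyperfilter ℕ : Filter ℕ) (𝓝 (h' a)) := by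
    intro a
    exact ((continuous_apply a).tendsto h').comp hlim'
  have hconst : ∀ a, h a ≠ ⊤ → h' a = h a := by
    intro a ha
    refine tendsto_nhds_unique (hcoord a) ?_
    refine Tendsto.congr (fun k => ((h2 k a).1 ha).symm) tendsto_const_nhds
  have hge : ∀ a ∈ F, h a = ⊤ → (g a : ℕ∞) ≤ h' a := by
    intro a ha htop
    refine ge_of_tendsto (hcoord a) (Filter.Eventually.of_forall fun k => ?_)
    have := (h2 k a).2 htop
    simp only [if_pos ha] at this
    exact this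
  have hoff : ∀ a, a ∉ F → h' a = h a := by
    intro a ha
    by_cases htop : h a = ⊤
    · by_cases haF' : a ∈ F'
      · rw [htop]
        by_contra hne
        obtain ⟨m, hm⟩ := ENat.ne_top_iff_exists.1 hne
        have : ((m + 1 : ℕ) : ℕ∞) ≤ h' a := by
          refine ge_of_tendsto (hcoord a) ?_
          have hev : ∀ᶠ k in (hyperfilter ℕ : Filter ℕ), m + 1 ≤ k :=
            (hyperfilter_le_cofinite (α := ℕ)) (by
              rw [Nat.cofinite_eq_atTop]; exact eventually_ge_atTop (m + 1))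
          filter_upwards [hev] with k hk
          have := (h2 k a).2 htop
          simp only [if_neg ha] at this
          exact (Nat.cast_le.2 hk).trans this
        rw [← hm] at this
        have := Nat.cast_le.1 this
        omega
      · exact hh'T a haF'
    · exact hconst a htop
  have hNb : h' ∈ Nb h g := by
    intro a
    refine ⟨hconst a, fun htop => ?_⟩
    by_cases ha : a ∈ F
    · exact hge a ha htop
    · rw [hoff a ha, htop]; exact le_top
  have hnot : h' ∉ D.W I := hQ h' hoff hNb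
  obtain ⟨K, hK⟩ := D.star I h' hnot F'
  have hev := hlim' (tube_nhds h' F' (fun _ => K))
  obtain ⟨k, hk⟩ := (hyperfilter ℕ : Filter ℕ).nonempty_of_mem hev
  refine hK (f k) (fun a ha => ?_) (fun a => ?_) (h3 k)
  · rw [h1 k a ha, hh'T a ha]
  · by_cases ha : a ∈ F'
    · exact hk a ha
    · rw [h1 k a ha, hh'T a ha]
      exact ⟨fun _ => rfl, fun htop => by rw [htop]; exact le_top⟩

/-- The limit of the recursion. -/
theorem limit (I : Set J) (h : Λ → ℕ∞) (hh : h ∉ D.W I) (F : ℕ → Finset Λ) (hF0 : F 0 = ∅)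
    (hF : Monotone F) : ∃ g : Λ → ℕ, ∀ n, D.Q I h (F n) g := by
  classical
  have h0 : D.Q I h (F 0) 0 := by
    intro h' hoff _
    have : h' = h := by
      funext a
      exact hoff a (by rw [hF0]; exact Finset.notMem_empty a)
    rw [this]
    exact hh
  have hs : ∀ n : ℕ, ∀ p : {g : Λ → ℕ // D.Q I h (F n) g},
      ∃ q : {g : Λ → ℕ // D.Q I h (F (n + 1)) g}, ∀ a ∈ F n, q.1 a = p.1 a := by
    intro n p
    obtain ⟨k, hk⟩ := D.step I h (F n) (F (n + 1)) (hF (Nat.le_succ n)) p.1 p.2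
    exact ⟨⟨_, hk⟩, fun a ha => by simp only [if_pos ha]⟩
  choose S hS using hs
  let s : ∀ n : ℕ, {g : Λ → ℕ // D.Q I h (F n) g} := fun n =>
    Nat.rec ⟨0, h0⟩ (fun n p => S n p) n
  have hsucc : ∀ n, s (n + 1) = S n (s n) := fun n => rfl
  have hstab : ∀ n m a, n ≤ m → a ∈ F n → (s m).1 a = (s n).1 a := by
    intro n m a hnm ha
    induction m, hnm using Nat.le_induction with
    | base => rfl
    | succ m hm ih =>
      rw [hsucc, hS m (s m) a (hF hm ha), ih]
  let g : Λ → ℕ := fun a => if hx : ∃ n, a ∈ F n then (s (Nat.find hx)).1 a else 0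
  have hg : ∀ n a, a ∈ F n → g a = (s n).1 a := by
    intro n a ha
    have hx : ∃ n, a ∈ F n := ⟨n, ha⟩
    simp only [g, dif_pos hx]
    exact (hstab _ _ a (Nat.find_min' hx ha) (Nat.find_spec hx)).symm
  refine ⟨g, fun n h' hoff hNb => ?_⟩
  refine (s n).2 h' hoff fun a => ?_
  refine ⟨(hNb a).1, fun htop => ?_⟩
  by_cases ha : a ∈ F n
  · rw [← hg n a ha]
    exact (hNb a).2 htop
  · rw [hoff a ha, htop]
    exact le_top

theorem dom_sub (j : J) (n : ℕ) (w : Λ → ℕ∞) (hw : w ∈ D.U j n) (a : Λ) (ha : w a ≠ ⊤) :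
    a ∈ D.δ j := by
  by_cases hA : a ∈ D.A j n
  · exact D.A_sub j n a hA
  · rw [D.U_eq j n w hw a hA] at ha
    exact D.x_dom j a ha

/-- Countable unions of the box families are closed in the box topology. -/
theorem closed (I : Set J) (hI : I.Countable) (h : Λ → ℕ∞) (hh : h ∉ D.W I) :
    ∃ g : Λ → ℕ, ∀ h' ∈ Nb h g, h' ∉ D.W I := by
  classical
  -- the centres
  let C : Set (J × ℕ × (Λ → ℕ∞)) := {c | c.1 ∈ I ∧ c.2.2 ∈ D.U c.1 c.2.1}
  have hC : C.Countable := by
    have : C = ⋃ j ∈ I, ⋃ n : ℕ, (fun w => (j, n, w)) '' (D.U j n : Set (Λ → ℕ∞)) := by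
      ext ⟨j, n, w⟩
      simp only [C, mem_iUnion, mem_image, Prod.mk.injEq]
      constructor
      · rintro ⟨h1, h2⟩
        exact ⟨j, h1, n, w, h2, rfl, rfl, rfl⟩
      · rintro ⟨j', h1, n', w', h2, rfl, rfl, rfl⟩
        exact ⟨h1, h2⟩
    rw [this]
    exact hI.biUnion fun j _ => countable_iUnion fun n =>
      ((Finset.finite_toSet _).image _).countable
  by_cases hCne : C.Nonempty
  swap
  · refine ⟨0, fun h' _ hW => ?_⟩
    obtain ⟨j, hj, n, w, hw, -⟩ := hW
    exact hCne ⟨(j, n, w), hj, hw⟩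
  obtain ⟨c, hc⟩ := hC.exists_eq_range hCne
  let E : Set Λ := ⋃ j ∈ I, D.δ j
  have hE : E.Countable := hI.biUnion fun j _ => D.δ_count j
  obtain ⟨ρ, hρ⟩ := (Set.countable_iff_exists_injOn).1 hE
  have hfin : ∀ m : ℕ, {a | a ∈ E ∧ ρ a < m}.Finite := by
    intro m
    refine Set.Finite.of_finite_image (f := ρ) ?_ ?_
    · exact (Set.finite_Iio m).subset (by rintro _ ⟨i, hi, rfl⟩; exact hi.2)
    · exact hρ.mono (fun i hi => hi.1)
  let F : ℕ → Finset Λ := fun m => (hfin m).toFinset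
  have memF : ∀ m a, a ∈ F m ↔ a ∈ E ∧ ρ a < m := by intro m a; simp [F]
  obtain ⟨g2, hg2⟩ := D.limit I h hh F
    (by ext a; rw [memF]; simp)
    (by
      intro m m' hm a ha
      have := (memF m a).1 ha
      exact (memF m' a).2 ⟨this.1, lt_of_lt_of_le this.2 hm⟩)
  let g1 : Λ → ℕ := fun a => (Finset.range (ρ a + 1)).sup fun m => ((c m).2.2 a).toNat + 1
  refine ⟨fun a => max (g1 a) (g2 a), fun h' hh' hW => ?_⟩
  obtain ⟨j, hj, n, w, hw, hN⟩ := hW
  have hwC : (j, n, w) ∈ C := ⟨hj, hw⟩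
  rw [hc] at hwC
  obtain ⟨m, hm⟩ := hwC
  -- the set dom w \ dom h
  have hsubE : ∀ a, w a ≠ ⊤ → a ∈ E := fun a ha =>
    mem_biUnion hj (D.dom_sub j n w hw a ha)
  -- all its elements have small rank
  have hsmall : ∀ a, w a ≠ ⊤ → h a = ⊤ → ρ a < m := by
    intro a ha htop
    by_contra hlt
    push Not at hlt
    have q1 : ((c m).2.2 a).toNat + 1 ≤ g1 a :=
      Finset.le_sup (f := fun m => ((c m).2.2 a).toNat + 1) (Finset.mem_range.2 (by omega))
    rw [hm] at q1
    have q2 := (hh' a).2 htop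
    rw [(hN a).1 ha, ← ENat.natCast_toNat ha] at q2
    have q3 := Nat.cast_le.1 q2
    have q4 := (le_max_left (g1 a) (g2 a)).trans q3
    simp only at q1
    omega
  refine hg2 m (fun a => if a ∈ F m then h' a else h a) (fun a ha => by simp only [if_neg ha])
    (fun a => ?_) ⟨j, hj, n, w, hw, fun a => ?_⟩
  · by_cases ha : a ∈ F m
    · simp only [if_pos ha]
      refine ⟨(hh' a).1, fun htop => ?_⟩
      exact (Nat.cast_le.2 (le_max_right (g1 a) (g2 a))).trans ((hh' a).2 htop)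
    · simp only [if_neg ha]
      exact ⟨fun _ => trivial, fun htop => by rw [htop]; exact le_top⟩
  · by_cases ha : a ∈ F m
    · simp only [if_pos ha]
      exact hN a
    · simp only [if_neg ha]
      have hcase : w a ≠ ⊤ → h a ≠ ⊤ := by
        intro hwa htop
        exact ha ((memF m a).2 ⟨hsubE a hwa, hsmall a hwa htop⟩)
      refine ⟨fun hwa => ?_, fun hwa => ?_⟩
      · rw [← (hN a).1 hwa, (hh' a).1 (hcase hwa)]
      · by_cases htop : h a = ⊤
        · rw [htop]; exact le_top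
        · rw [← (hh' a).1 htop]
          exact (hN a).2 hwa

/-- The point `x j` belongs to one of the boxes of index `j`. -/
theorem mem_self (j : J) : ∃ w ∈ D.U j 0, D.x j ∈ Nb w (D.g j 0 w) := by
  obtain ⟨w, hw, -⟩ := D.U_cover j 0 (D.x j) (fun a _ => rfl)
  refine ⟨w, hw, fun a => ?_⟩
  have ha : a ∉ D.A j 0 := by rw [D.A_zero]; exact Finset.notMem_empty a
  have := D.U_eq j 0 w hw a ha
  refine ⟨fun _ => this.symm, fun htop => ?_⟩
  rw [← this, htop]
  exact le_top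

end Data

end Pool.Agent.Helper21.NCH
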