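import Mathlib
import Pool.Agent.Helper21.NCH.Core

set_option autoImplicit false

/-!
# Existence of the data
-/

open Set Filter Topology

namespace Pool.Agent.Helper21.NCH

universe u v

/-- A finite set inside the range of a sequence is covered by finitely many terms. -/
theorem exists_level {Λ : Type u} [DecidableEq Λ] (e : ℕ → Λ) (S : Set Λ) (hS : S.Finite)
    (hsub : S ⊆ range e) : ∃ n : ℕ, ∀ m, n ≤ m → ∀ a ∈ S, a ∈ (Finset.range m).image e := by
  induction S, hS using Set.Finite.induction_on with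
  | empty => exact ⟨0, by simp⟩
  | insert ha hs ih =>
    rename_i a s
    obtain ⟨n, hn⟩ := ih (fun b hb => hsub (mem_insert_of_mem _ hb))
    obtain ⟨k, hk⟩ := hsub (mem_insert a s)
    refine ⟨max n (k + 1), fun m hm b hb => ?_⟩
    rcases hb with rfl | hb
    · rw [Finset.mem_image]
      refine ⟨k, Finset.mem_range.2 ?_, hk⟩
      have := le_max_right n (k + 1)
      omega
    · exact hn m ((le_max_left _ _).trans hm) b hb

theorem exists_data {Λ : Type u} {J : Type v} [LinearOrder J] (hJ : ∀ j : J, (Iic j).Countable)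
    (x : J → Λ → ℕ∞) (hx : ∀ j, {a | x j a ≠ ⊤}.Countable) (l : J → Λ)
    (hl : Function.Surjective l) (gc : (Λ → ℕ∞) → Λ → ℕ) :
    ∃ D : Data Λ J, D.x = x ∧ D.gc = gc := by
  classical
  let δ : J → Set Λ := fun j => ⋃ i ∈ Iic j, ({a | x i a ≠ ⊤} ∪ {l i})
  have hδc : ∀ j, (δ j).Countable := fun j =>
    (hJ j).biUnion fun i _ => (hx i).union (countable_singleton _)
  have hδne : ∀ j, (δ j).Nonempty := fun j =>
    ⟨l j, mem_biUnion (mem_Iic.2 le_rfl) (Or.inr rfl)⟩
  have hδm : ∀ i j, i ≤ j → δ i ⊆ δ j := by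
    intro i j hij a ha
    simp only [δ, mem_iUnion] at ha ⊢
    obtain ⟨k, hk, h⟩ := ha
    exact ⟨k, hk.trans hij, h⟩
  have hxδ : ∀ j a, x j a ≠ ⊤ → a ∈ δ j := fun j a ha =>
    mem_biUnion (mem_Iic.2 le_rfl) (Or.inl ha)
  choose e he using fun j => (hδc j).exists_eq_range (hδne j)
  let A : J → ℕ → Finset Λ := fun j n => (Finset.range n).image (e j)
  have hAmono : ∀ j n m, n ≤ m → A j n ⊆ A j m := fun j n m hnm =>
    Finset.image_subset_image (Finset.range_subset_range.2 hnm)
  have hAsub : ∀ j n a, a ∈ A j n → a ∈ δ j := by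
    intro j n a ha
    obtain ⟨k, -, rfl⟩ := Finset.mem_image.1 ha
    rw [he j]
    exact mem_range_self k
  have hAex : ∀ j a, a ∈ δ j → ∃ n, a ∈ A j n := by
    intro j a ha
    rw [he j] at ha
    obtain ⟨k, rfl⟩ := ha
    exact ⟨k + 1, Finset.mem_image.2 ⟨k, Finset.mem_range.2 (Nat.lt_succ_self k), rfl⟩⟩
  -- levels
  have hκex : ∀ (i : J) (n : ℕ) (j : J), ∃ k : ℕ,
      (i < j → (A i n ⊆ A j k) ∧ ((Dis (x i) (x j)).Finite → ∀ a ∈ Dis (x i) (x j), a ∈ A j k)) ∧
      (i = j → k = n) := by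
    intro i n j
    by_cases hij : i < j
    · have h1 : (A i n : Set Λ) ⊆ range (e j) := by
        intro a ha
        rw [← he j]
        exact hδm i j hij.le (hAsub i n a ha)
      obtain ⟨k1, hk1⟩ := exists_level (e j) (A i n : Set Λ) (Finset.finite_toSet _) h1
      by_cases hf : (Dis (x i) (x j)).Finite
      · have h2 : Dis (x i) (x j) ⊆ range (e j) := by
          intro a ha
          rw [← he j]
          exact hxδ j a ha.2.1
        obtain ⟨k2, hk2⟩ := exists_level (e j) _ hf h2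
        refine ⟨max k1 k2, fun _ => ⟨fun a ha => hk1 _ (le_max_left _ _) a ha,
          fun _ a ha => hk2 _ (le_max_right _ _) a ha⟩, fun h => absurd h hij.ne⟩
      · exact ⟨k1, fun _ => ⟨fun a ha => hk1 _ le_rfl a ha, fun h => absurd h hf⟩,
          fun h => absurd h hij.ne⟩
    · exact ⟨n, fun h => absurd h hij, fun _ => rfl⟩
  choose κ hκ1 hκ2 using hκex
  choose U hU1 hU2 using fun (j : J) (n : ℕ) => exists_tube gc (x j) (A j n)
  -- bounds
  let c : Λ → J → ℕ → ℕ := fun a j n => (U j n).sup fun w => gc w a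
  have hIc : ∀ a : Λ, {j | a ∉ δ j}.Countable := by
    intro a
    obtain ⟨j0, hj0⟩ := hl a
    refine (hJ j0).mono fun j hj => ?_
    by_contra hlt
    rw [mem_Iic, not_le] at hlt
    exact hj (hδm j0 j hlt.le (mem_biUnion (mem_Iic.2 le_rfl) (Or.inr hj0.symm)))
  choose R hR1 hR2 using fun a : Λ => exists_rank κ (c a) {j | a ∉ δ j} (hIc a)
  let p : J → Λ → ℕ := fun j a => sInf {n | a ∈ A j n}
  have hp : ∀ j n a, a ∈ δ j → a ∉ A j n → n < p j a := by
    intro j n a ha hn
    by_contra hlt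
    push Not at hlt
    have h1 : a ∈ A j (p j a) := Nat.sInf_mem (s := {n | a ∈ A j n}) (hAex j a ha)
    exact hn (hAmono j _ _ hlt h1)
  let G : J → ℕ → Λ → ℕ := fun j n a =>
    if a ∈ δ j then (Finset.range (p j a)).sup fun m => c a j m else R a j n
  refine ⟨{ gc := gc, x := x, A := A, δ := δ, κ := κ, U := U, G := G,
            A_zero := fun j => by simp [A], A_mono := hAmono, A_sub := hAsub, δ_mono := hδm,
            x_dom := hxδ, δ_count := hδc, κ_A := ?_, κ_Dis := ?_, U_eq := hU1, U_cover := hU2,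
            G_ge := ?_, G_const := ?_, G_rank := ?_ }, rfl, rfl⟩
  · intro i n j hij
    rcases hij.lt_or_eq with hlt | rfl
    · exact (hκ1 i n j hlt).1
    · rw [hκ2 i n i rfl]
  · intro i n j hij hf a ha
    rcases hij.lt_or_eq with hlt | rfl
    · exact (hκ1 i n j hlt).2 hf a ha
    · exact absurd rfl ha.2.2
  · intro j n a hA w hw
    have h1 : gc w a ≤ c a j n := Finset.le_sup (f := fun w => gc w a) hw
    by_cases hδ : a ∈ δ j
    · simp only [G, if_pos hδ]
      exact h1.trans (Finset.le_sup (f := fun m => c a j m) (Finset.mem_range.2 (hp j n a hδ hA)))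
    · simp only [G, if_neg hδ]
      exact h1.trans (hR1 a j hδ n)
  · intro j n m a hδ
    simp only [G, if_pos hδ]
  · intro i n j m a hij hδ
    have hδi : a ∉ δ i := fun h => hδ (hδm i j hij h)
    simp only [G, if_neg hδ, if_neg hδi]
    rcases hij.lt_or_eq with hlt | rfl
    · exact hR2 a i hδi j hδ hlt n m
    · rw [hκ2 i n i rfl]
      rcases le_total m n with h | h
      · rw [max_eq_right h]; exact le_max_left _ _
      · rw [max_eq_left h]; exact le_max_right _ _

/-- The number of functions with countable support. -/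
theorem card_le (Λ : Type u) (h : Cardinal.mk Λ ≤ Cardinal.continuum.{u}) :
    Cardinal.mk {f : Λ → ℕ∞ // {a | f a ≠ ⊤}.Countable} ≤ Cardinal.continuum.{u} := by
  let φ : {f : Λ → ℕ∞ // {a | f a ≠ ⊤}.Countable} →
      {t : Set (Λ × ULift.{u} ℕ∞) // Cardinal.mk t ≤ Cardinal.aleph0} := fun f =>
    ⟨{q | f.1 q.1 = q.2.down ∧ q.2.down ≠ ⊤}, by
      rw [Cardinal.le_aleph0_iff_set_countable]
      have : {q : Λ × ULift.{u} ℕ∞ | f.1 q.1 = q.2.down ∧ q.2.down ≠ ⊤} =
          (fun a => (a, ULift.up (f.1 a))) '' {a | f.1 a ≠ ⊤} := by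
        ext ⟨a, b⟩
        constructor
        · rintro ⟨h1, h2⟩
          refine ⟨a, ?_, ?_⟩
          · intro h3
            exact h2 (h1.symm.trans h3)
          · simp only [Prod.mk.injEq, true_and]
            exact ULift.ext _ _ h1
        · rintro ⟨a', h1, h2⟩
          simp only [Prod.mk.injEq] at h2
          obtain ⟨rfl, rfl⟩ := h2
          exact ⟨rfl, h1⟩
      rw [this]
      exact f.2.image _⟩
  have hφ : Function.Injective φ := by
    intro f g hfg
    have h1 : {q : Λ × ULift.{u} ℕ∞ | f.1 q.1 = q.2.down ∧ q.2.down ≠ ⊤} =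
        {q | g.1 q.1 = q.2.down ∧ q.2.down ≠ ⊤} := congrArg Subtype.val hfg
    apply Subtype.ext
    funext a
    by_cases hf : f.1 a = ⊤
    · by_contra hne
      have hg : g.1 a ≠ ⊤ := fun h => hne (hf.trans h.symm)
      have h2 : ((a, ULift.up (g.1 a)) : Λ × ULift.{u} ℕ∞) ∈
          {q : Λ × ULift.{u} ℕ∞ | f.1 q.1 = q.2.down ∧ q.2.down ≠ ⊤} := by
        rw [h1]; exact ⟨rfl, hg⟩
      exact hne h2.1
    · have h2 : ((a, ULift.up (f.1 a)) : Λ × ULift.{u} ℕ∞) ∈
          {q : Λ × ULift.{u} ℕ∞ | g.1 q.1 = q.2.down ∧ q.2.down ≠ ⊤} := by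
        rw [← h1]; exact ⟨rfl, hf⟩
      exact h2.1.symm
  refine (Cardinal.mk_le_of_injective hφ).trans ?_
  refine (Cardinal.mk_bounded_set_le (Λ × ULift.{u} ℕ∞) Cardinal.aleph0).trans ?_
  rw [← Cardinal.continuum_power_aleph0]
  refine Cardinal.power_le_power_right (max_le ?_ Cardinal.aleph0_le_continuum)
  rw [Cardinal.mk_prod, Cardinal.lift_id, Cardinal.lift_id]
  refine (mul_le_mul' h (?_ : _ ≤ Cardinal.continuum)).trans
    (by rw [Cardinal.continuum_mul_self])
  exact (Cardinal.mk_le_aleph0).trans Cardinal.aleph0_le_continuum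

end Pool.Agent.Helper21.NCH
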